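import Mathlib
import Pool.Agent.Helper11.PlaneEuler.Lift
import Pool.Agent.Helper375.EA.Lift

set_option autoImplicit false

/-!
# A smooth action of an amenable group on the plane with non-zero real Euler class

Let `D z = 10 z`. Let `t` be the Dehn twist in the collar `1 < |z|² < 2` of the unit disc, `t'` the
same twist about the point `4`, `κ` the half-turn `z ↦ 4 - z` about `2`, smoothly tapered to the
identity off the disc of radius `4` about `2`, so that `κ t κ⁻¹ = t'`. Let `b` and `H` be the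
infinite products over `j ≥ 0` of the conjugates `D^j t D^{-j}` and `D^j t' D^{-j}` (they have
disjoint supports and form locally finite families, so `b` and `H` are smooth). Then
`[b, D] = t` and `[H, D] = t'`, and `G = ⟨D, b, H, κ⟩`.

* `G` is amenable (indeed (locally solvable)-by-cyclic): a solvable group supported in the unit disc
  together with `κ, t, t'` generates a solvable group, because `κ` maps the unit disc to a disjoint
  disc and `κ²` is invisible there; `b, H` commute with each other and with everything supported in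
  the unit disc (`Pool.Agent.Helper375.EA.Rel`).
* In the group of lifts, `κ⁻¹ [H, D] κ` and `[b, D]` are the lifts of `t` which are trivial near
  infinity and near the origin respectively, so they differ by the central element of the full
  rotation: a relation of a surface group of genus two (`Pool.Agent.Helper375.EA.Lift`).
-/

open scoped commutatorElement ContDiff

namespace Pool.Agent.Results.MP_4dd439_gt.AmenableEuler

open Pool.Agent.Helper11.PlaneEuler

noncomputable section

/-! ### Definitions used in the statement -/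

/-- A discrete group is amenable: there is a left-invariant finitely additive probability measure
on all its subsets. -/
def IsAmenable (G : Type) [Group G] : Prop :=
  ∃ μ : Set G → ℝ, (∀ A, 0 ≤ μ A) ∧ μ Set.univ = 1 ∧
    (∀ A B : Set G, Disjoint A B → μ (A ∪ B) = μ A + μ B) ∧
    ∀ (g : G) (A : Set G), μ ((fun x => g * x) '' A) = μ A

/-- The orientation preserving homeomorphisms of the plane `ℝ² = ℂ`: those `f` for which the
argument of the quotient `(f q - f p) / (q - p)` can be chosen continuously over all pairs `p ≠ q`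
(equivalently, `f q - f p` winds once around `0` in the positive direction when `q` does so around
`p`). A `PlaneLift` is such an `f` together with such a choice; composition makes the `PlaneLift`s
a group, a central extension of `HomeoPlus` by the infinite cyclic group of the elements
`central n` (the identity with the constant argument `2 π n`). It is the universal covering group
of the group of orientation preserving homeomorphisms of the plane. -/
def HomeoPlus : Subgroup (ℂ ≃ₜ ℂ) where
  carrier := {f | ∃ F : PlaneLift, F.homeo = f}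
  mul_mem' := by
    rintro _ _ ⟨F, rfl⟩ ⟨G, rfl⟩
    exact ⟨F * G, rfl⟩
  one_mem' := ⟨1, rfl⟩
  inv_mem' := by
    rintro _ ⟨F, rfl⟩
    exact ⟨F⁻¹, rfl⟩

section Euler

variable {G : Type} [Group G]

/-- A section: a lift `s g` of the homeomorphism `ρ g`, for each `g`. -/
def IsSection (ρ : G →* HomeoPlus) (s : G → PlaneLift) : Prop :=
  ∀ g, (s g).homeo = (ρ g : ℂ ≃ₜ ℂ)

/-- The Euler cocycle of the section `s`: the integers with
`s g * s h = central (c (g, h)) * s (g * h)`. -/
def IsEulerCocycle (s : G → PlaneLift) (c : G × G → ℤ) : Prop :=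
  ∀ g h, s g * s h = central (c (g, h)) * s (g * h)

theorem exists_section (ρ : G →* HomeoPlus) : ∃ s, IsSection ρ s :=
  ⟨fun g => (ρ g).2.choose, fun g => (ρ g).2.choose_spec⟩

theorem exists_cocycle {ρ : G →* HomeoPlus} {s : G → PlaneLift} (hs : IsSection ρ s) :
    ∃ c, IsEulerCocycle s c := by
  have h : ∀ p : G × G, ∃ k : ℤ, s p.1 * s p.2 = central k * s (p.1 * p.2) := by
    intro p
    apply lift_unique
    rw [mul_homeo, hs, hs, hs, map_mul]
    rfl
  choose c hc using h
  exact ⟨c, fun g h => hc (g, h)⟩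

theorem central_add (m n : ℤ) : central (m + n) = central m * central n := by
  refine PlaneLift.ext' rfl (fun x => ?_)
  rw [mul_angle]
  show 2 * Real.pi * ((m + n : ℤ) : ℝ) = 2 * Real.pi * (m : ℝ) + 2 * Real.pi * (n : ℝ)
  push_cast
  ring

theorem central_zero : central 0 = 1 := by
  refine PlaneLift.ext' rfl (fun x => ?_)
  show 2 * Real.pi * ((0 : ℤ) : ℝ) = 0
  simp

theorem central_injective {m n : ℤ} (h : central m = central n) : m = n := by
  have h2 : (central m).angle ⟨(0, 1), by simp⟩ = (central n).angle ⟨(0, 1), by simp⟩ := by rw [h]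
  have h3 : 2 * Real.pi * (m : ℝ) = 2 * Real.pi * (n : ℝ) := h2
  have h4 : (m : ℝ) = n := mul_left_cancel₀ (by positivity) h3
  exact_mod_cast h4

theorem cocycle_identity {s : G → PlaneLift} {c : G × G → ℤ} (hc : IsEulerCocycle s c)
    (g h j : G) : c (g * h, j) + c (g, h) = c (h, j) + c (g, h * j) := by
  apply central_injective
  have e1 : s g * s h * s j = central (c (g * h, j) + c (g, h)) * s (g * h * j) := by
    rw [hc g h, mul_assoc, hc (g * h) j, ← mul_assoc, ← central_add, add_comm]
  have e2 : s g * (s h * s j) = central (c (h, j) + c (g, h * j)) * s (g * (h * j)) := by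
    rw [hc h j, ← mul_assoc, ← central_comm, mul_assoc, hc g (h * j), ← mul_assoc, ← central_add]
  rw [mul_assoc] at e1
  rw [e1, mul_assoc g h j] at e2
  exact mul_right_cancel e2

/-- The Euler cocycle is a cocycle with values in the trivial `G`-module `ℝ`. -/
theorem mem_cocycles {s : G → PlaneLift} {c : G × G → ℤ} (hc : IsEulerCocycle s c) :
    (fun p : G × G => (c p : ℝ)) ∈ groupCohomology.cocycles₂ (Rep.trivial ℝ G ℝ) := by
  rw [groupCohomology.mem_cocycles₂_iff]
  intro g h j
  have := cocycle_identity hc g h j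
  show (c (g * h, j) : ℝ) + (c (g, h) : ℝ) = (c (h, j) : ℝ) + (c (g, h * j) : ℝ)
  exact_mod_cast this

/-- The class in `H²(G; ℝ)` of an Euler cocycle. -/
def classOf (s : G → PlaneLift) (c : G × G → ℤ) (hc : IsEulerCocycle s c) :
    groupCohomology.H2 (Rep.trivial ℝ G ℝ) :=
  groupCohomology.H2π (Rep.trivial ℝ G ℝ) ⟨fun p => (c p : ℝ), mem_cocycles hc⟩

/-- The Euler class `e(ρ) ∈ H²(G; ℝ)` of an action of the discrete group `G` on the plane by
orientation preserving homeomorphisms: the class of the Euler cocycle of a section of lifts, that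
is, the image in real cohomology of the class of the central extension of `G` by `ℤ` pulled back
by `ρ` from the central extension of `HomeoPlus` formed by all `PlaneLift`s. -/
def eulerClass (ρ : G →* HomeoPlus) : groupCohomology.H2 (Rep.trivial ℝ G ℝ) :=
  classOf (exists_section ρ).choose (exists_cocycle (exists_section ρ).choose_spec).choose
    (exists_cocycle (exists_section ρ).choose_spec).choose_spec

/-- The Euler class does not depend on the section. -/
theorem eulerClass_eq (ρ : G →* HomeoPlus) (s : G → PlaneLift) (hs : IsSection ρ s)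
    (c : G × G → ℤ) (hc : IsEulerCocycle s c) : eulerClass ρ = classOf s c hc := by
  unfold eulerClass
  set s0 := (exists_section ρ).choose with hs0
  have h0 : IsSection ρ s0 := (exists_section ρ).choose_spec
  set c0 := (exists_cocycle (exists_section ρ).choose_spec).choose with hc0
  have hc0' : IsEulerCocycle s0 c0 := (exists_cocycle (exists_section ρ).choose_spec).choose_spec
  have hk : ∀ g, ∃ k : ℤ, s g = central k * s0 g := fun g =>
    lift_unique _ _ ((hs g).trans (h0 g).symm)
  choose k hk using hk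
  have key : ∀ g h, c (g, h) + k (g * h) = k g + k h + c0 (g, h) := by
    intro g h
    apply central_injective
    have e1 : s g * s h = central (c (g, h) + k (g * h)) * s0 (g * h) := by
      rw [hc g h, hk (g * h), ← mul_assoc, ← central_add]
    have e2 : s g * s h = central (k g + k h + c0 (g, h)) * s0 (g * h) := by
      calc s g * s h = (central (k g) * s0 g) * (central (k h) * s0 h) := by rw [hk g, hk h]
        _ = central (k g) * ((s0 g * central (k h)) * s0 h) := by simp only [mul_assoc]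
        _ = central (k g) * ((central (k h) * s0 g) * s0 h) := by rw [central_comm (k h) (s0 g)]
        _ = central (k g) * central (k h) * (s0 g * s0 h) := by simp only [mul_assoc]
        _ = _ := by rw [hc0' g h, central_add, central_add]; simp only [mul_assoc]
    exact mul_right_cancel (e1.symm.trans e2)
  unfold classOf
  rw [groupCohomology.H2π_eq_iff]
  refine ⟨fun g => - (k g : ℝ), ?_⟩
  funext p
  obtain ⟨g, h⟩ := p
  show (-(k h : ℝ)) - (-(k (g * h) : ℝ)) + (-(k g : ℝ)) = (c0 (g, h) : ℝ) - (c (g, h) : ℝ)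
  have := key g h
  have h2 : (c (g, h) : ℝ) + (k (g * h) : ℝ) = (k g : ℝ) + (k h : ℝ) + (c0 (g, h) : ℝ) := by
    exact_mod_cast this
  linarith

end Euler

/-- The action `ρ` is by `C^∞` diffeomorphisms (`ρ g` and `ρ g⁻¹` are both covered) with positive
Jacobian determinant everywhere. -/
def IsSmoothAction {G : Type} [Group G] (ρ : G →* HomeoPlus) : Prop :=
  ∀ g : G, ContDiff ℝ ∞ ((ρ g : ℂ ≃ₜ ℂ) : ℂ → ℂ) ∧
    ∀ z : ℂ, 0 < (fderiv ℝ ((ρ g : ℂ ≃ₜ ℂ) : ℂ → ℂ) z).det

/-! ### Nonvanishing -/

section Nonvanishing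

variable {G : Type} [Group G]

/-- pairs of an element and a lift of its image -/
def Fib (ρ : G →* HomeoPlus) : Subgroup (PlaneLift × G) where
  carrier := {p | p.1.homeo = (ρ p.2 : ℂ ≃ₜ ℂ)}
  mul_mem' := by
    intro a b ha hb
    show (a.1 * b.1).homeo = (ρ (a.2 * b.2) : ℂ ≃ₜ ℂ)
    have ha' : a.1.homeo = (ρ a.2 : ℂ ≃ₜ ℂ) := ha
    have hb' : b.1.homeo = (ρ b.2 : ℂ ≃ₜ ℂ) := hb
    rw [mul_homeo, map_mul, ha', hb']
    rfl
  one_mem' := by
    show (1 : PlaneLift).homeo = (ρ 1 : ℂ ≃ₜ ℂ)
    rw [map_one]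
    rfl
  inv_mem' := by
    intro a ha
    show (a.1⁻¹).homeo = (ρ a.2⁻¹ : ℂ ≃ₜ ℂ)
    have ha' : a.1.homeo = (ρ a.2 : ℂ ≃ₜ ℂ) := ha
    rw [inv_homeo, map_inv, ha']
    rfl

/-- If the Euler class vanishes then the central elements are detected by a homomorphism to
an abelian group. -/
theorem exists_hom {ρ : G →* HomeoPlus} (h : eulerClass ρ = 0) :
    ∃ v : Fib ρ →* Multiplicative ℝ, ∀ x : Fib ρ, (x : PlaneLift × G) = (central 1, 1) → v x ≠ 1 := by
  obtain ⟨s, hs⟩ := exists_section ρ
  obtain ⟨c, hc⟩ := exists_cocycle hs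
  rw [eulerClass_eq ρ s hs c hc] at h
  unfold classOf at h
  rw [groupCohomology.H2π_eq_zero_iff] at h
  obtain ⟨u, hu⟩ := h
  have hu' : ∀ g h, u h - u (g * h) + u g = (c (g, h) : ℝ) := fun g h => congrFun hu (g, h)
  have hn : ∀ x : Fib ρ, ∃ n : ℤ, (x : PlaneLift × G).1 = central n * s (x : PlaneLift × G).2 := by
    intro x
    exact lift_unique _ _ (x.2.trans (hs _).symm)
  choose n hn using hn
  have hnu : ∀ (x : Fib ρ) (k : ℤ), (x : PlaneLift × G).1 = central k * s (x : PlaneLift × G).2 →
      n x = k := by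
    intro x k hk
    apply central_injective
    exact mul_right_cancel ((hn x).symm.trans hk)
  let w : Fib ρ → ℝ := fun x => (n x : ℝ) + u (x : PlaneLift × G).2
  have hw : ∀ x y, w (x * y) = w x + w y := by
    intro x y
    have h1 : n (x * y) = n x + n y + c ((x : PlaneLift × G).2, (y : PlaneLift × G).2) := by
      apply hnu
      show (x : PlaneLift × G).1 * (y : PlaneLift × G).1 =
        central _ * s ((x : PlaneLift × G).2 * (y : PlaneLift × G).2)
      rw [central_add, central_add, mul_assoc, ← hc, mul_assoc (central (n x)),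
        ← mul_assoc (central (n y)), central_comm (n y), mul_assoc (s _) (central (n y)), ← hn y,
        ← mul_assoc, ← hn x]
    show (n (x * y) : ℝ) + u ((x : PlaneLift × G).2 * (y : PlaneLift × G).2) =
      ((n x : ℝ) + u _) + ((n y : ℝ) + u _)
    rw [h1]
    have h2 := hu' (x : PlaneLift × G).2 (y : PlaneLift × G).2
    push_cast
    rw [← h2]
    ring
  refine ⟨⟨⟨fun x => Multiplicative.ofAdd (w x), ?_⟩, ?_⟩, ?_⟩
  · have := hw 1 1
    rw [mul_one] at this
    have h0 : w 1 = 0 := by linarith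
    show Multiplicative.ofAdd (w 1) = 1
    rw [h0]
    rfl
  · intro x y
    show Multiplicative.ofAdd (w (x * y)) = Multiplicative.ofAdd (w x) * Multiplicative.ofAdd (w y)
    rw [hw]
    rfl
  · intro x hx h1
    have h2 : w x = 0 := by
      have : Multiplicative.ofAdd (w x) = Multiplicative.ofAdd 0 := h1
      exact Multiplicative.ofAdd.injective this
    have h3 : w 1 = 0 := by
      have := hw 1 1
      rw [mul_one] at this
      linarith
    have h4 : n x = n 1 + 1 := by
      apply hnu
      have h5 := hn 1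
      have h6 : ((1 : Fib ρ) : PlaneLift × G) = (1, 1) := rfl
      rw [h6] at h5
      rw [hx]
      show central 1 = central (n 1 + 1) * s 1
      rw [central_add, mul_assoc, central_comm 1, ← mul_assoc, ← h5, one_mul]
    have h7 : w x = w 1 + 1 := by
      show (n x : ℝ) + u (x : PlaneLift × G).2 = ((n 1 : ℝ) + u ((1 : Fib ρ) : PlaneLift × G).2) + 1
      rw [h4, hx]
      have h8 : ((1 : Fib ρ) : PlaneLift × G).2 = 1 := rfl
      rw [h8]
      push_cast
      ring
    rw [h2, h3] at h7
    norm_num at h7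

end Nonvanishing

/-! ### The example -/

open Pool.Agent.Helper375.EA

theorem hB : ∃ B : PlaneLift, B.homeo = bb :=
  exists_lift_of_id bb 0 (id_near_of_supp bb_mem)

theorem hF : ∃ F : PlaneLift, F.homeo = hh :=
  exists_lift_of_id hh 0 (id_near_of_supp hh_mem)

theorem hK : ∃ K : PlaneLift, K.homeo = kap :=
  exists_lift_of_id kap 100 kap_near

theorem GG_le_plus : GG ≤ HomeoPlus := by
  unfold GG
  rw [Subgroup.closure_le]
  rintro x (rfl | rfl | rfl | rfl)
  · exact ⟨dilL, rfl⟩
  · exact hB
  · exact hF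
  · exact hK

theorem dil_smooth : dil ∈ smoothPlus := by
  have h1 : BiSmooth dil := by
    refine ⟨?_, ?_⟩
    · have : (dil : ℂ → ℂ) = fun z => 10 * z := by funext z; exact dil_apply z
      rw [this]
      exact contDiff_const.mul contDiff_id
    · have : ((dil⁻¹ : ℂ ≃ₜ ℂ) : ℂ → ℂ) = fun z => z / 10 := by funext z; exact dil_inv_apply z
      rw [this]
      exact contDiff_id.div_const _
  refine ⟨h1, det_pos_of_point h1 0 ?_⟩
  have h2 : fderiv ℝ (dil : ℂ → ℂ) 0 = (10 : ℝ) • ContinuousLinearMap.id ℝ ℂ := by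
    apply HasFDerivAt.fderiv
    have h : (dil : ℂ → ℂ) = fun z => ((10 : ℝ) • ContinuousLinearMap.id ℝ ℂ) z := by
      funext z
      rw [dil_apply]
      simp
    rw [h]
    exact ((10 : ℝ) • ContinuousLinearMap.id ℝ ℂ).hasFDerivAt
  rw [h2]
  have h3 : ((10 : ℝ) • ContinuousLinearMap.id ℝ ℂ).det = 10 ^ 2 := by
    unfold ContinuousLinearMap.det
    have h : (((10 : ℝ) • ContinuousLinearMap.id ℝ ℂ : ℂ →L[ℝ] ℂ) : ℂ →ₗ[ℝ] ℂ) =
      (10 : ℝ) • LinearMap.id := rfl
    rw [h, LinearMap.det_smul, Complex.finrank_real_complex, LinearMap.det_id, mul_one]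
  rw [h3]
  norm_num

theorem GG_le_smooth : GG ≤ smoothPlus := by
  unfold GG
  rw [Subgroup.closure_le]
  rintro x (rfl | rfl | rfl | rfl)
  · exact dil_smooth
  · exact mem_smoothPlus (biSmooth_spread _ (biSmooth_tw _ _ _)) 0 (id_near_of_supp bb_mem)
  · exact mem_smoothPlus (biSmooth_spread _ (biSmooth_tw _ _ _)) 0 (id_near_of_supp hh_mem)
  · exact mem_smoothPlus (biSmooth_tw _ _ _) 100 kap_near

/-- the action of the example -/
def act : GG →* HomeoPlus := Subgroup.inclusion GG_le_plus

def gD : GG := ⟨dil, Subgroup.subset_closure (by simp)⟩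
def gB : GG := ⟨bb, Subgroup.subset_closure (by simp)⟩
def gH : GG := ⟨hh, Subgroup.subset_closure (by simp)⟩
def gK : GG := ⟨kap, Subgroup.subset_closure (by simp)⟩

theorem rel_GG : ⁅gK⁻¹ * gH * gK, gK⁻¹ * gD * gK⁆ * ⁅gD, gB⁆ = 1 := by
  obtain ⟨B, hB⟩ := hB
  obtain ⟨F, hF⟩ := hF
  obtain ⟨K, hK⟩ := hK
  have h := congrArg PlaneLift.homeo (relation B F K hB hF hK)
  apply Subtype.ext
  have e : (⁅K⁻¹ * F * K, K⁻¹ * dilL * K⁆ * ⁅dilL, B⁆).homeo =
      ⁅K.homeo⁻¹ * F.homeo * K.homeo, K.homeo⁻¹ * dil * K.homeo⁆ * ⁅dil, B.homeo⁆ := rfl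
  rw [e, hB, hF, hK] at h
  exact h

theorem euler_ne_zero : eulerClass act ≠ 0 := by
  intro h0
  obtain ⟨v, hv⟩ := exists_hom h0
  obtain ⟨B, hB⟩ := hB
  obtain ⟨F, hF⟩ := hF
  obtain ⟨K, hK⟩ := hK
  let xD : Fib act := ⟨(dilL, gD), rfl⟩
  let xB : Fib act := ⟨(B, gB), hB⟩
  let xH : Fib act := ⟨(F, gH), hF⟩
  let xK : Fib act := ⟨(K, gK), hK⟩
  refine hv (⁅xK⁻¹ * xH * xK, xK⁻¹ * xD * xK⁆ * ⁅xD, xB⁆) ?_ ?_
  · have h1 : ((⁅xK⁻¹ * xH * xK, xK⁻¹ * xD * xK⁆ * ⁅xD, xB⁆ : Fib act) : PlaneLift × GG) =
        (⁅K⁻¹ * F * K, K⁻¹ * dilL * K⁆ * ⁅dilL, B⁆,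
          ⁅gK⁻¹ * gH * gK, gK⁻¹ * gD * gK⁆ * ⁅gD, gB⁆) := rfl
    rw [h1, relation B F K hB hF hK, rel_GG]
  · have hcomm : ∀ a b : Fib act, v ⁅a, b⁆ = 1 := by
      intro a b
      rw [map_commutatorElement, commutatorElement_eq_one_iff_commute]
      exact Commute.all _ _
    rw [map_mul, hcomm, hcomm, mul_one]

/-- the genus two surface group inside the example -/
def gens : Fin 2 ⊕ Fin 2 → GG :=
  Sum.elim ![gK⁻¹ * gH * gK, gD] ![gK⁻¹ * gD * gK, gB]

theorem lift_relator' {A : Type} [Group A] (f : Fin 2 ⊕ Fin 2 → A) :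
    FreeGroup.lift f (surfaceRelator 2) =
      (List.ofFn fun i : Fin 2 => ⁅f (Sum.inl i), f (Sum.inr i)⁆).prod := by
  unfold surfaceRelator
  rw [map_list_prod, List.map_ofFn]
  congr 2
  funext i
  simp [map_commutatorElement]

theorem prod_two {A : Type} [Group A] (f g : Fin 2 → A) :
    (List.ofFn fun i : Fin 2 => ⁅f i, g i⁆).prod = ⁅f 0, g 0⁆ * ⁅f 1, g 1⁆ := by
  simp [List.ofFn_succ]

theorem gens_rel : ∀ r ∈ ({surfaceRelator 2} : Set (FreeGroup (Fin 2 ⊕ Fin 2))),
    FreeGroup.lift gens r = 1 := by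
  intro r hr
  rw [Set.mem_singleton_iff] at hr
  rw [hr, lift_relator', prod_two (fun i => gens (Sum.inl i)) (fun i => gens (Sum.inr i))]
  exact rel_GG

/-- the homomorphism from the genus two surface group -/
def phi : SurfaceGroup 2 →* GG := PresentedGroup.toGroup gens_rel

theorem comm_left {A : Type} [Group A] (z x y : A) (hz : ∀ w, z * w = w * z) :
    ⁅z * x, y⁆ = ⁅x, y⁆ := by
  rw [commutatorElement_def, commutatorElement_def, mul_inv_rev]
  have h1 : z⁻¹ * y⁻¹ = y⁻¹ * z⁻¹ := by
    rw [← mul_inv_rev, ← mul_inv_rev, hz y]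
  calc z * x * y * (x⁻¹ * z⁻¹) * y⁻¹ = z * (x * y * x⁻¹) * (z⁻¹ * y⁻¹) := by
        simp only [mul_assoc]
    _ = (x * y * x⁻¹) * z * (y⁻¹ * z⁻¹) := by rw [hz (x * y * x⁻¹), h1]
    _ = (x * y * x⁻¹) * (z * (y⁻¹ * z⁻¹)) := by rw [mul_assoc]
    _ = (x * y * x⁻¹) * y⁻¹ := by rw [hz (y⁻¹ * z⁻¹), inv_mul_cancel_right]

theorem comm_right {A : Type} [Group A] (z x y : A) (hz : ∀ w, z * w = w * z) :
    ⁅x, z * y⁆ = ⁅x, y⁆ := by
  have h := congrArg (fun w => w⁻¹) (comm_left z y x hz)
  simpa only [commutatorElement_inv] using h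

theorem comm_lifts {F F' E E' : PlaneLift} (h1 : F'.homeo = F.homeo) (h2 : E'.homeo = E.homeo) :
    ⁅F', E'⁆ = ⁅F, E⁆ := by
  obtain ⟨k, rfl⟩ := lift_unique F' F h1
  obtain ⟨l, rfl⟩ := lift_unique E' E h2
  rw [comm_left _ _ _ (central_comm k), comm_right _ _ _ (central_comm l)]

theorem euler_number : HasEulerNumber (HomeoPlus.subtype.comp (act.comp phi)) 1 := by
  obtain ⟨B, hB⟩ := hB
  obtain ⟨F, hF⟩ := hF
  obtain ⟨K, hK⟩ := hK
  have hphi : ∀ x, (HomeoPlus.subtype.comp (act.comp phi)) (PresentedGroup.of x) =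
      ((gens x : GG) : ℂ ≃ₜ ℂ) := by
    intro x
    show ((phi (PresentedGroup.of x) : GG) : ℂ ≃ₜ ℂ) = _
    unfold phi
    rw [PresentedGroup.toGroup.of]
  have a0 : (K⁻¹ * F * K).homeo = ((gK⁻¹ * gH * gK : GG) : ℂ ≃ₜ ℂ) := by
    rw [mul_homeo, mul_homeo, inv_homeo, hK, hF]
    rfl
  have b0 : (K⁻¹ * dilL * K).homeo = ((gK⁻¹ * gD * gK : GG) : ℂ ≃ₜ ℂ) := by
    rw [mul_homeo, mul_homeo, inv_homeo, hK]
    rfl
  refine ⟨⟨![K⁻¹ * F * K, dilL], ![K⁻¹ * dilL * K, B], ?_, ?_⟩, ?_⟩
  · intro i
    rw [hphi]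
    fin_cases i
    · exact a0
    · rfl
  · intro i
    rw [hphi]
    fin_cases i
    · exact b0
    · exact hB
  · intro P Q hP hQ
    rw [prod_two]
    have p0 : (P 0).homeo = (K⁻¹ * F * K).homeo := by rw [hP, hphi, a0]; rfl
    have q0 : (Q 0).homeo = (K⁻¹ * dilL * K).homeo := by rw [hQ, hphi, b0]; rfl
    have p1 : (P 1).homeo = dilL.homeo := by rw [hP, hphi]; rfl
    have q1 : (Q 1).homeo = B.homeo := by rw [hQ, hphi, hB]; rfl
    rw [comm_lifts p0 q0, comm_lifts p1 q1]
    exact relation B F K hB hF hK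

/-- **The Euler class of an amenable group acting smoothly on the plane can be non-zero.** There
are a finitely generated amenable group `G` and a faithful action `ρ` of `G` on `ℝ²` by orientation
preserving `C^∞` diffeomorphisms whose Euler class in `H²(G; ℝ)` is not zero; moreover the action
can be pulled back to the fundamental group of the closed oriented surface of genus two by a
homomorphism `φ`, so that the resulting flat `ℝ²`-bundle over the surface has Euler number one. -/
theorem result : ∃ (G : Type) (_ : Group G) (ρ : G →* HomeoPlus),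
    IsAmenable G ∧ IsSmoothAction ρ ∧ eulerClass ρ ≠ 0 ∧
    (∃ φ : SurfaceGroup 2 →* G, HasEulerNumber (HomeoPlus.subtype.comp (ρ.comp φ)) 1) ∧
    Function.Injective ρ ∧ Group.FG G := by
  refine ⟨GG, inferInstance, act, HJI.Fol.mean_of_fol GG_fol, ?_, euler_ne_zero,
    ⟨phi, euler_number⟩, Subgroup.inclusion_injective _, ?_⟩
  · intro g
    have h := GG_le_smooth g.2
    exact ⟨h.1.1, h.2⟩
  · have h : (GG : Subgroup (ℂ ≃ₜ ℂ)).FG := by
      refine (Subgroup.fg_iff _).2 ⟨{dil, bb, hh, kap}, rfl, ?_⟩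
      exact Set.toFinite _
    exact (Group.fg_iff_subgroup_fg _).2 h

end

end Pool.Agent.Results.MP_4dd439_gt.AmenableEuler
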