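import Pool.Agent.Helper240.FlatE.Good
import Pool.Agent.Helper240.Amen.HB

/-!
A finitely generated solvable (hence amenable) group with an action on the plane by orientation
preserving smooth diffeomorphisms whose real Euler class is not zero.

The group is generated by the dilation `δ` by `6`, the product `S` of the half turns of infinitely
many disjoint discs, and two infinite products `x`, `x'` of Dehn twists: `x'` is the product of the
twists around a nested sequence of discs exhausting the plane, `x` is the product of the twists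
around a sequence of disjoint discs going to infinity. With `T = δ ^ 2 S δ⁻¹` one has
`[x, T] = [x', δ]` (both are the twist around one disc), but the canonical lifts of the two
commutators differ by a full turn. All conjugates of `x` and `x'` commute, and so do the
conjugates of `S` by the powers of `δ`.
-/

set_option autoImplicit false

open scoped ContDiff commutatorElement
open Pool.Agent.Helper11.PlaneEuler Pool.Agent.Helper240.FlatE Pool.Agent.Helper240.Amen

namespace Pool.Agent.Results.MP_4dd439_gt.AmenablePlane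

noncomputable section

/-- `c` is an integral Euler cocycle of the action `ρ` on the plane: it is the cocycle of the
central extension of `G` pulled back from the central extension `PlaneLift` of the group of
orientation preserving homeomorphisms of the plane, for some choice `L g` of lifts of `ρ g`. -/
def IsEulerCocycle {G : Type} [Group G] (ρ : G →* (ℂ ≃ₜ ℂ)) (c : G → G → ℤ) : Prop :=
  ∃ L : G → PlaneLift, (∀ g, (L g).homeo = ρ g) ∧
    ∀ g h, L g * L h = central (c g h) * L (g * h)

/-- The Euler class of the action `ρ` on the plane is not zero in `H²(G; ℝ)`: it has Euler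
cocycles, and none of them is the coboundary of a real valued function. -/
def RealEulerClassNonzero {G : Type} [Group G] (ρ : G →* (ℂ ≃ₜ ℂ)) : Prop :=
  (∃ c, IsEulerCocycle ρ c) ∧
    ∀ c, IsEulerCocycle ρ c → ¬ ∃ b : G → ℝ, ∀ g h, (c g h : ℝ) = b g + b h - b (g * h)

theorem central_mul (m n : ℤ) : central m * central n = central (m + n) := by
  refine PlaneLift.ext' ?_ (fun x => ?_)
  · rw [mul_homeo]
    exact one_mul _
  · rw [mul_angle]
    show 2 * Real.pi * (m : ℝ) + 2 * Real.pi * (n : ℝ) = 2 * Real.pi * ((m + n : ℤ) : ℝ)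
    push_cast
    ring

theorem central_injective {m n : ℤ} (h : central m = central n) : m = n := by
  have h2 : (central m).angle ⟨(0, 1), by simp⟩ = (central n).angle ⟨(0, 1), by simp⟩ := by rw [h]
  have h3 : 2 * Real.pi * (m : ℝ) = 2 * Real.pi * (n : ℝ) := h2
  have h4 : (m : ℝ) = n := mul_left_cancel₀ (by positivity) h3
  exact_mod_cast h4

theorem exists_cocycle {G : Type} [Group G] (ρ : G →* (ℂ ≃ₜ ℂ))
    (h : ∀ g, ∃ F : PlaneLift, F.homeo = ρ g) : ∃ c, IsEulerCocycle ρ c := by
  choose L hL using h
  have h2 : ∀ g h, ∃ k : ℤ, L g * L h = central k * L (g * h) := by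
    intro g h
    apply lift_unique
    rw [mul_homeo, hL, hL, hL, map_mul]
  choose c hc using h2
  exact ⟨c, L, hL, hc⟩

/-- the relation prevents the real Euler class from vanishing -/
theorem not_coboundary (c : G0 → G0 → ℤ) (hc : IsEulerCocycle G0.subtype c) :
    ¬ ∃ b : G0 → ℝ, ∀ g h, (c g h : ℝ) = b g + b h - b (g * h) := by
  rintro ⟨b, hb⟩
  obtain ⟨L, hL, hLc⟩ := hc
  -- the homomorphism on the group of lifts
  have hk : ∀ (F : PlaneLift) (hF : F.homeo ∈ G0), ∃ k : ℤ, F = central k * L ⟨F.homeo, hF⟩ := by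
    intro F hF
    apply lift_unique
    rw [hL]
    rfl
  let φ : PlaneLift → ℝ := by
    classical
    exact fun F => if hF : F.homeo ∈ G0 then ((Classical.choose (hk F hF) : ℤ) : ℝ) + b ⟨F.homeo, hF⟩
      else 0
  have hφ : ∀ (F : PlaneLift) (g : G0) (k : ℤ), F = central k * L g → φ F = k + b g := by
    intro F g k hF
    have h1 : F.homeo = (g : ℂ ≃ₜ ℂ) := by
      rw [hF, mul_homeo, hL]
      exact one_mul _
    have h2 : F.homeo ∈ G0 := by rw [h1]; exact g.2
    have h3 : (⟨F.homeo, h2⟩ : G0) = g := Subtype.ext h1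
    have h4 : φ F = ((Classical.choose (hk F h2) : ℤ) : ℝ) + b ⟨F.homeo, h2⟩ := dif_pos h2
    have h5 := Classical.choose_spec (hk F h2)
    have h6 : Classical.choose (hk F h2) = k := by
      apply central_injective
      have h7 : L ⟨F.homeo, h2⟩ = L g := by rw [h3]
      have h8 : F = central k * L ⟨F.homeo, h2⟩ := by rw [h7]; exact hF
      have := h5.symm.trans h8
      exact mul_right_cancel this
    rw [h4, h6, h3]
  have hmul : ∀ F F' : PlaneLift, F.homeo ∈ G0 → F'.homeo ∈ G0 → φ (F * F') = φ F + φ F' := by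
    intro F F' hF hF'
    obtain ⟨k, hk1⟩ := hk F hF
    obtain ⟨l, hl1⟩ := hk F' hF'
    set g : G0 := ⟨F.homeo, hF⟩
    set g' : G0 := ⟨F'.homeo, hF'⟩
    have h1 : F * F' = central (k + l + c g g') * L (g * g') := by
      rw [hk1, hl1, ← central_mul, ← central_mul, mul_assoc (central k * central l), ← hLc]
      have := central_comm l (L g)
      calc central k * L g * (central l * L g') = central k * (L g * central l) * L g' := by
            simp only [mul_assoc]
        _ = central k * (central l * L g) * L g' := by rw [this]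
        _ = central k * central l * (L g * L g') := by simp only [mul_assoc]
    rw [hφ _ _ _ h1, hφ _ _ _ hk1, hφ _ _ _ hl1]
    have := hb g g'
    push_cast
    linarith
  have hone : φ 1 = 0 := by
    have h1 : (1 : PlaneLift).homeo ∈ G0 := by
      rw [one_homeo]; exact G0.one_mem
    have := hmul 1 1 h1 h1
    rw [one_mul] at this
    linarith
  have hinv : ∀ F : PlaneLift, F.homeo ∈ G0 → φ F⁻¹ = - φ F := by
    intro F hF
    have h1 : (F⁻¹).homeo ∈ G0 := by
      rw [inv_homeo]; exact G0.inv_mem hF
    have := hmul F F⁻¹ hF h1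
    rw [mul_inv_cancel, hone] at this
    linarith
  have hcomm : ∀ F F' : PlaneLift, F.homeo ∈ G0 → F'.homeo ∈ G0 → φ ⁅F, F'⁆ = 0 := by
    intro F F' hF hF'
    have h1 : (F⁻¹).homeo ∈ G0 := by rw [inv_homeo]; exact G0.inv_mem hF
    have h2 : (F'⁻¹).homeo ∈ G0 := by rw [inv_homeo]; exact G0.inv_mem hF'
    have h3 : (F * F').homeo ∈ G0 := by rw [mul_homeo]; exact G0.mul_mem hF hF'
    have h4 : (F * F' * F⁻¹).homeo ∈ G0 := by rw [mul_homeo]; exact G0.mul_mem h3 h1
    rw [commutatorElement_def, hmul _ _ h4 h2, hmul _ _ h3 h1, hmul _ _ hF hF', hinv F hF,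
      hinv F' hF']
    ring
  -- the four elements
  have mdil : dil ∈ G0 := Subgroup.subset_closure (Or.inl rfl)
  have mS : S ∈ G0 := Subgroup.subset_closure (Or.inr (Or.inl rfl))
  have mx : X fx ∈ G0 := Subgroup.subset_closure (Or.inr (Or.inr (Or.inl rfl)))
  have mx' : X fx' ∈ G0 := Subgroup.subset_closure (Or.inr (Or.inr (Or.inr rfl)))
  have mT : T ∈ G0 := by
    rw [T_eq]
    exact G0.mul_mem (G0.mul_mem (G0.mul_mem mdil mdil) mS) (G0.inv_mem mdil)
  obtain ⟨XL, hXL⟩ := X_lift fx
  obtain ⟨XL', hXL'⟩ := X_lift fx'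
  obtain ⟨TL, hTL⟩ := (G0_good mT).2.2.2
  have hrel := lifted_relation XL TL XL' hXL hTL hXL'
  have e1 := hcomm XL TL (by rw [hXL]; exact mx) (by rw [hTL]; exact mT)
  have e2 := hcomm XL' dilL (by rw [hXL']; exact mx') mdil
  have hcen : (central 1).homeo ∈ G0 := G0.one_mem
  have hc0 : (⁅XL', dilL⁆).homeo ∈ G0 := by
    have : (⁅XL', dilL⁆).homeo = ⁅XL'.homeo, dilL.homeo⁆ := rfl
    rw [this, hXL', dilL_homeo, commutatorElement_def]
    exact G0.mul_mem (G0.mul_mem (G0.mul_mem mx' mdil) (G0.inv_mem mx')) (G0.inv_mem mdil)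
  rw [hrel, hmul _ _ hcen hc0, e2, add_zero] at e1
  -- value at the central element
  have h1 : (1 : PlaneLift).homeo ∈ G0 := by
    rw [one_homeo]; exact G0.one_mem
  obtain ⟨k, hk1⟩ := hk 1 h1
  have h2 : central 1 = central (1 + k) * L ⟨(1 : PlaneLift).homeo, h1⟩ := by
    rw [← central_mul, mul_assoc, ← hk1, mul_one]
  have h3 := hφ _ _ _ h2
  have h4 := hφ _ _ _ hk1
  rw [e1] at h3
  rw [hone] at h4
  push_cast at h3
  linarith

/-- There are a finitely generated solvable amenable group `G` and an action of `G` on the plane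
`ℂ = ℝ²` by orientation preserving `C^∞` diffeomorphisms whose Euler class in `H²(G; ℝ)` is not
zero. -/
theorem result : ∃ (G : Type) (_ : Group G) (ρ : G →* (ℂ ≃ₜ ℂ)),
    Group.FG G ∧ Group.IsSolvable G ∧ Amenable G ∧
    (∀ g, ContDiff ℝ ∞ (ρ g : ℂ → ℂ)) ∧ (∀ g z, 0 < (fderiv ℝ (ρ g : ℂ → ℂ) z).det) ∧
    RealEulerClassNonzero ρ := by
  refine ⟨G0, inferInstance, G0.subtype, ?_, G0_solvable, amenable_of_solvable _ G0_solvable,
    fun g => (G0_good g.2).1, fun g z => (G0_good g.2).2.2.1 z,
    exists_cocycle _ (fun g => (G0_good g.2).2.2.2), not_coboundary⟩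
  have hfin : gens.Finite := by
    unfold gens
    exact Set.toFinite _
  rw [Group.fg_iff_subgroup_fg]
  exact (Subgroup.fg_iff _).mpr ⟨gens, rfl, hfin⟩

end

end Pool.Agent.Results.MP_4dd439_gt.AmenablePlane
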